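import Pool.Agent.Lib.MP_afdd4d_co.K8.RN.E47
import Pool.Agent.Lib.MP_afdd4d_co.K10.RS.Dat

/-!
# The near rows of the coset number 47, part 0
-/

namespace Pool.Agent.Lib.MP_afdd4d_co.K10.RN

open K8 RS K8.Jv Pool.Agent.Lib.MP_afdd4d_co.K8.RN

theorem n47_0 :
    (RS.D.chkM (RS.D.QE E47.g 0) (mkE RS.D.w E47.z 0) 0 RS.K true E47.L0 = true ∧
    RS.D.chkM (RS.D.QE E47.g 1) (mkE RS.D.w E47.z 1) 1 RS.K true E47.L0 = true ∧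
    RS.D.chkM (RS.D.QE E47.g 2) (mkE RS.D.w E47.z 2) 2 RS.K true E47.L0 = true ∧
    RS.D.chkM (RS.D.QE E47.g 3) (mkE RS.D.w E47.z 3) 3 RS.K true E47.L0 = true) ∧
    (RS.D.chkM (RS.D.QE E47.g 4) (mkE RS.D.w E47.z 4) 4 RS.K true E47.L0 = true ∧
    RS.D.chkM (RS.D.QE E47.g 5) (mkE RS.D.w E47.z 5) 5 RS.K true E47.L0 = true ∧
    RS.D.chkM (RS.D.QE E47.g 6) (mkE RS.D.w E47.z 6) 6 RS.K true E47.L0 = true ∧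
    RS.D.chkM (RS.D.QE E47.g 7) (mkE RS.D.w E47.z 7) 7 RS.K true E47.L0 = true) ∧
    (RS.D.chkM (RS.D.QE E47.g 8) (mkE RS.D.w E47.z 8) 8 RS.K true E47.L0 = true ∧
    RS.D.chkM (RS.D.QE E47.g 9) (mkE RS.D.w E47.z 9) 9 RS.K true E47.L0 = true ∧
    RS.D.chkM (RS.D.QE E47.g 10) (mkE RS.D.w E47.z 10) 10 RS.K true E47.L0 = true ∧
    RS.D.chkM (RS.D.QE E47.g 11) (mkE RS.D.w E47.z 11) 11 RS.K true E47.L0 = true) ∧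
    (RS.D.chkM (RS.D.QE E47.g 12) (mkE RS.D.w E47.z 12) 12 RS.K true E47.L0 = true ∧
    RS.D.chkM (RS.D.QE E47.g 13) (mkE RS.D.w E47.z 13) 13 RS.K true E47.L0 = true ∧
    RS.D.chkM (RS.D.QE E47.g 14) (mkE RS.D.w E47.z 14) 14 RS.K true E47.L0 = true ∧
    RS.D.chkM (RS.D.QE E47.g 15) (mkE RS.D.w E47.z 15) 15 RS.K true E47.L0 = true) := by
  refine ⟨⟨?_, ?_, ?_, ?_⟩, ⟨?_, ?_, ?_, ?_⟩, ⟨?_, ?_, ?_, ?_⟩, ⟨?_, ?_, ?_, ?_⟩⟩ <;> decide +kernel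

theorem r47_0 : ∀ e ∈ E47.L0, RS.S.RowJ (jset e.c) :=
  RS.D.near E47.g E47.z E47.hg RS.K (rep_mem 47 (by decide) rfl) RS.K_lt RS.K_eq E47.L0 E47.h0
    fun τ hτ => (RS.D.chkM_spec (Tabs.forall16
      (fun τ => RS.D.chkM (RS.D.QE E47.g τ) (mkE RS.D.w E47.z τ) τ RS.K true E47.L0 = true)
      n47_0.1 n47_0.2.1 n47_0.2.2.1 n47_0.2.2.2 τ hτ)).2

end Pool.Agent.Lib.MP_afdd4d_co.K10.RN
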