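import Pool.Agent.Lib.MP_afdd4d_co.K10.RN.N00_0
import Pool.Agent.Lib.MP_afdd4d_co.K10.RN.N01_0
import Pool.Agent.Lib.MP_afdd4d_co.K10.RN.N02_0
import Pool.Agent.Lib.MP_afdd4d_co.K10.RN.N02_1
import Pool.Agent.Lib.MP_afdd4d_co.K10.RN.N03_0
import Pool.Agent.Lib.MP_afdd4d_co.K10.RN.N03_1
import Pool.Agent.Lib.MP_afdd4d_co.K10.RN.N03_2
import Pool.Agent.Lib.MP_afdd4d_co.K10.RN.N04_0
import Pool.Agent.Lib.MP_afdd4d_co.K10.RN.N05_0
import Pool.Agent.Lib.MP_afdd4d_co.K10.RN.N06_0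
import Pool.Agent.Lib.MP_afdd4d_co.K10.RN.N06_1
import Pool.Agent.Lib.MP_afdd4d_co.K10.RN.N07_0
import Pool.Agent.Lib.MP_afdd4d_co.K10.RN.N08_0
import Pool.Agent.Lib.MP_afdd4d_co.K10.RN.N08_1
import Pool.Agent.Lib.MP_afdd4d_co.K10.RN.N09_0
import Pool.Agent.Lib.MP_afdd4d_co.K10.RN.N09_1
import Pool.Agent.Lib.MP_afdd4d_co.K10.RN.N09_2
import Pool.Agent.Lib.MP_afdd4d_co.K10.RN.N09_3
import Pool.Agent.Lib.MP_afdd4d_co.K10.RN.N10_0
import Pool.Agent.Lib.MP_afdd4d_co.K10.RN.N10_1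
import Pool.Agent.Lib.MP_afdd4d_co.K10.RN.N11_0
import Pool.Agent.Lib.MP_afdd4d_co.K10.RN.N11_1
import Pool.Agent.Lib.MP_afdd4d_co.K10.RN.N12_0
import Pool.Agent.Lib.MP_afdd4d_co.K10.RN.N12_1
import Pool.Agent.Lib.MP_afdd4d_co.K10.RN.N12_2
import Pool.Agent.Lib.MP_afdd4d_co.K10.RN.N13_0
import Pool.Agent.Lib.MP_afdd4d_co.K10.RN.N13_1
import Pool.Agent.Lib.MP_afdd4d_co.K10.RN.N14_0
import Pool.Agent.Lib.MP_afdd4d_co.K10.RN.N14_1
import Pool.Agent.Lib.MP_afdd4d_co.K10.RN.N14_2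
import Pool.Agent.Lib.MP_afdd4d_co.K10.RN.N14_3
import Pool.Agent.Lib.MP_afdd4d_co.K10.RN.N15_0
import Pool.Agent.Lib.MP_afdd4d_co.K10.RN.N16_0
import Pool.Agent.Lib.MP_afdd4d_co.K10.RN.N17_0
import Pool.Agent.Lib.MP_afdd4d_co.K10.RN.N18_0
import Pool.Agent.Lib.MP_afdd4d_co.K10.RN.N19_0
import Pool.Agent.Lib.MP_afdd4d_co.K10.RN.N20_0
import Pool.Agent.Lib.MP_afdd4d_co.K10.RN.N21_0
import Pool.Agent.Lib.MP_afdd4d_co.K10.RN.N22_0
import Pool.Agent.Lib.MP_afdd4d_co.K10.RN.N23_0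
import Pool.Agent.Lib.MP_afdd4d_co.K10.RN.N24_0
import Pool.Agent.Lib.MP_afdd4d_co.K10.RN.N24_1
import Pool.Agent.Lib.MP_afdd4d_co.K10.RN.N24_2
import Pool.Agent.Lib.MP_afdd4d_co.K10.RN.N24_3
import Pool.Agent.Lib.MP_afdd4d_co.K10.RN.N25_0
import Pool.Agent.Lib.MP_afdd4d_co.K10.RN.N26_0
import Pool.Agent.Lib.MP_afdd4d_co.K10.RN.N26_1
import Pool.Agent.Lib.MP_afdd4d_co.K10.RN.N26_2
import Pool.Agent.Lib.MP_afdd4d_co.K10.RN.N27_0
import Pool.Agent.Lib.MP_afdd4d_co.K10.RN.N27_1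
import Pool.Agent.Lib.MP_afdd4d_co.K10.RN.N27_2
import Pool.Agent.Lib.MP_afdd4d_co.K10.RN.N28_0
import Pool.Agent.Lib.MP_afdd4d_co.K10.RN.N28_1
import Pool.Agent.Lib.MP_afdd4d_co.K10.RN.N29_0
import Pool.Agent.Lib.MP_afdd4d_co.K10.RN.N29_1
import Pool.Agent.Lib.MP_afdd4d_co.K10.RN.N29_2
import Pool.Agent.Lib.MP_afdd4d_co.K10.RN.N29_3
import Pool.Agent.Lib.MP_afdd4d_co.K10.RN.N29_4
import Pool.Agent.Lib.MP_afdd4d_co.K10.RN.N30_0
import Pool.Agent.Lib.MP_afdd4d_co.K10.RN.N31_0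
import Pool.Agent.Lib.MP_afdd4d_co.K10.RN.N32_0
import Pool.Agent.Lib.MP_afdd4d_co.K10.RN.N33_0
import Pool.Agent.Lib.MP_afdd4d_co.K10.RN.N34_0
import Pool.Agent.Lib.MP_afdd4d_co.K10.RN.N35_0
import Pool.Agent.Lib.MP_afdd4d_co.K10.RN.N36_0
import Pool.Agent.Lib.MP_afdd4d_co.K10.RN.N37_0
import Pool.Agent.Lib.MP_afdd4d_co.K10.RN.N37_1
import Pool.Agent.Lib.MP_afdd4d_co.K10.RN.N37_2
import Pool.Agent.Lib.MP_afdd4d_co.K10.RN.N38_0
import Pool.Agent.Lib.MP_afdd4d_co.K10.RN.N39_0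
import Pool.Agent.Lib.MP_afdd4d_co.K10.RN.N39_1
import Pool.Agent.Lib.MP_afdd4d_co.K10.RN.N40_0
import Pool.Agent.Lib.MP_afdd4d_co.K10.RN.N40_1
import Pool.Agent.Lib.MP_afdd4d_co.K10.RN.N41_0
import Pool.Agent.Lib.MP_afdd4d_co.K10.RN.N41_1
import Pool.Agent.Lib.MP_afdd4d_co.K10.RN.N42_0
import Pool.Agent.Lib.MP_afdd4d_co.K10.RN.N42_1
import Pool.Agent.Lib.MP_afdd4d_co.K10.RN.N43_0
import Pool.Agent.Lib.MP_afdd4d_co.K10.RN.N44_0
import Pool.Agent.Lib.MP_afdd4d_co.K10.RN.N46_0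
import Pool.Agent.Lib.MP_afdd4d_co.K10.RN.N47_0
import Pool.Agent.Lib.MP_afdd4d_co.K10.RN.N48_0
import Pool.Agent.Lib.MP_afdd4d_co.K10.RN.N49_0
import Pool.Agent.Lib.MP_afdd4d_co.K10.RN.N50_0
import Pool.Agent.Lib.MP_afdd4d_co.K10.RN.N52_0
import Pool.Agent.Lib.MP_afdd4d_co.K8.CovDat
import Pool.Agent.Lib.MP_afdd4d_co.K8.JF

/-!
# The near rows
-/

namespace Pool.Agent.Lib.MP_afdd4d_co.K10.RN

open K8 RS K8.Jv Pool.Agent.Lib.MP_afdd4d_co.K8.RN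

/-- All near differences, in parts. -/
def LL : List (List Ent) := [
  E00.L0, E01.L0, E02.L0, E02.L1, E03.L0, E03.L1, E03.L2, E04.L0, E05.L0, E06.L0,
  E06.L1, E07.L0, E08.L0, E08.L1, E09.L0, E09.L1, E09.L2, E09.L3, E10.L0, E10.L1,
  E11.L0, E11.L1, E12.L0, E12.L1, E12.L2, E13.L0, E13.L1, E14.L0, E14.L1, E14.L2,
  E14.L3, E15.L0, E16.L0, E17.L0, E18.L0, E19.L0, E20.L0, E21.L0, E22.L0, E23.L0,
  E24.L0, E24.L1, E24.L2, E24.L3, E25.L0, E26.L0, E26.L1, E26.L2, E27.L0, E27.L1,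
  E27.L2, E28.L0, E28.L1, E29.L0, E29.L1, E29.L2, E29.L3, E29.L4, E30.L0, E31.L0,
  E32.L0, E33.L0, E34.L0, E35.L0, E36.L0, E37.L0, E37.L1, E37.L2, E38.L0, E39.L0,
  E39.L1, E40.L0, E40.L1, E41.L0, E41.L1, E42.L0, E42.L1, E43.L0, E44.L0, E46.L0,
  E47.L0, E48.L0, E49.L0, E50.L0, E52.L0]

theorem LL_row : ∀ L ∈ LL, ∀ e ∈ L, RS.S.RowJ (jset e.c) := by
  intro L hL
  unfold LL at hL
  simp only [List.mem_cons, List.not_mem_nil, or_false] at hL
  rcases hL with rfl | rfl | rfl | rfl | rfl | rfl | rfl | rfl | rfl | rfl | rfl | rfl | rfl | rfl | rfl | rfl |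
    rfl | rfl | rfl | rfl | rfl | rfl | rfl | rfl | rfl | rfl | rfl | rfl | rfl | rfl | rfl | rfl |
    rfl | rfl | rfl | rfl | rfl | rfl | rfl | rfl | rfl | rfl | rfl | rfl | rfl | rfl | rfl | rfl |
    rfl | rfl | rfl | rfl | rfl | rfl | rfl | rfl | rfl | rfl | rfl | rfl | rfl | rfl | rfl | rfl |
    rfl | rfl | rfl | rfl | rfl | rfl | rfl | rfl | rfl | rfl | rfl | rfl | rfl | rfl | rfl | rfl |
    rfl | rfl | rfl | rfl | rfl
  · exact r00_0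
  · exact r01_0
  · exact r02_0
  · exact r02_1
  · exact r03_0
  · exact r03_1
  · exact r03_2
  · exact r04_0
  · exact r05_0
  · exact r06_0
  · exact r06_1
  · exact r07_0
  · exact r08_0
  · exact r08_1
  · exact r09_0
  · exact r09_1
  · exact r09_2
  · exact r09_3
  · exact r10_0
  · exact r10_1
  · exact r11_0
  · exact r11_1
  · exact r12_0
  · exact r12_1
  · exact r12_2
  · exact r13_0
  · exact r13_1
  · exact r14_0
  · exact r14_1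
  · exact r14_2
  · exact r14_3
  · exact r15_0
  · exact r16_0
  · exact r17_0
  · exact r18_0
  · exact r19_0
  · exact r20_0
  · exact r21_0
  · exact r22_0
  · exact r23_0
  · exact r24_0
  · exact r24_1
  · exact r24_2
  · exact r24_3
  · exact r25_0
  · exact r26_0
  · exact r26_1
  · exact r26_2
  · exact r27_0
  · exact r27_1
  · exact r27_2
  · exact r28_0
  · exact r28_1
  · exact r29_0
  · exact r29_1
  · exact r29_2
  · exact r29_3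
  · exact r29_4
  · exact r30_0
  · exact r31_0
  · exact r32_0
  · exact r33_0
  · exact r34_0
  · exact r35_0
  · exact r36_0
  · exact r37_0
  · exact r37_1
  · exact r37_2
  · exact r38_0
  · exact r39_0
  · exact r39_1
  · exact r40_0
  · exact r40_1
  · exact r41_0
  · exact r41_1
  · exact r42_0
  · exact r42_1
  · exact r43_0
  · exact r44_0
  · exact r46_0
  · exact r47_0
  · exact r48_0
  · exact r49_0
  · exact r50_0
  · exact r52_0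

/-- The number of edges of a near difference is smaller. -/
def k0 : ℕ := 7

theorem sub0 : sb LL.flatten (nearLL 0) = true := by decide +kernel

theorem sub1 : sb LL.flatten (nearLL 1) = true := by decide +kernel

theorem sub2 : sb LL.flatten (nearLL 2) = true := by decide +kernel

theorem sub3 : sb LL.flatten (nearLL 3) = true := by decide +kernel

theorem sub4 : sb LL.flatten (nearLL 4) = true := by decide +kernel

theorem sub5 : sb LL.flatten (nearLL 5) = true := by decide +kernel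

theorem sub6 : sb LL.flatten (nearLL 6) = true := by decide +kernel

theorem near : ∀ k < k0, ∀ c ∈ nearLL k, RS.S.RowJ (jset c) := by
  intro k hk
  have hk : k < 7 := hk
  interval_cases k
  · exact near_of_sb LL LL_row sub0
  · exact near_of_sb LL LL_row sub1
  · exact near_of_sb LL LL_row sub2
  · exact near_of_sb LL LL_row sub3
  · exact near_of_sb LL LL_row sub4
  · exact near_of_sb LL LL_row sub5
  · exact near_of_sb LL LL_row sub6

end Pool.Agent.Lib.MP_afdd4d_co.K10.RN
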