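import Pool.Agent.Lib.MP_afdd4d_co.K8.RN.E45
import Pool.Agent.Lib.MP_afdd4d_co.K10.RS.Dat
import Pool.Agent.Lib.MP_afdd4d_co.K8.PsiExc
import Pool.Agent.Lib.MP_afdd4d_co.K10.RP.T45

/-!
# The condition for the 4-graph of the coset number 45
-/

namespace Pool.Agent.Lib.MP_afdd4d_co.K10.RN

open K8 RS K8.Jv Pool.Agent.Lib.MP_afdd4d_co.K8.RN

theorem q45 :
    (K8.Pt.chH RS.D (RS.D.QE E45.g 0) (Nat.xor (mkE RS.D.w E45.z 0) (K8.Pt.xLL RS.D.w 0 RP.X45)) RP.tK45 RP.K1_45 0 = true ∧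
    K8.Pt.chH RS.D (RS.D.QE E45.g 1) (Nat.xor (mkE RS.D.w E45.z 1) (K8.Pt.xLL RS.D.w 1 RP.X45)) RP.tK45 RP.K1_45 1 = true ∧
    K8.Pt.chH RS.D (RS.D.QE E45.g 2) (Nat.xor (mkE RS.D.w E45.z 2) (K8.Pt.xLL RS.D.w 2 RP.X45)) RP.tK45 RP.K1_45 2 = true ∧
    K8.Pt.chH RS.D (RS.D.QE E45.g 3) (Nat.xor (mkE RS.D.w E45.z 3) (K8.Pt.xLL RS.D.w 3 RP.X45)) RP.tK45 RP.K1_45 3 = true) ∧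
    (K8.Pt.chH RS.D (RS.D.QE E45.g 4) (Nat.xor (mkE RS.D.w E45.z 4) (K8.Pt.xLL RS.D.w 4 RP.X45)) RP.tK45 RP.K1_45 4 = true ∧
    K8.Pt.chH RS.D (RS.D.QE E45.g 5) (Nat.xor (mkE RS.D.w E45.z 5) (K8.Pt.xLL RS.D.w 5 RP.X45)) RP.tK45 RP.K1_45 5 = true ∧
    K8.Pt.chH RS.D (RS.D.QE E45.g 6) (Nat.xor (mkE RS.D.w E45.z 6) (K8.Pt.xLL RS.D.w 6 RP.X45)) RP.tK45 RP.K1_45 6 = true ∧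
    K8.Pt.chH RS.D (RS.D.QE E45.g 7) (Nat.xor (mkE RS.D.w E45.z 7) (K8.Pt.xLL RS.D.w 7 RP.X45)) RP.tK45 RP.K1_45 7 = true) ∧
    (K8.Pt.chH RS.D (RS.D.QE E45.g 8) (Nat.xor (mkE RS.D.w E45.z 8) (K8.Pt.xLL RS.D.w 8 RP.X45)) RP.tK45 RP.K1_45 8 = true ∧
    K8.Pt.chH RS.D (RS.D.QE E45.g 9) (Nat.xor (mkE RS.D.w E45.z 9) (K8.Pt.xLL RS.D.w 9 RP.X45)) RP.tK45 RP.K1_45 9 = true ∧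
    K8.Pt.chH RS.D (RS.D.QE E45.g 10) (Nat.xor (mkE RS.D.w E45.z 10) (K8.Pt.xLL RS.D.w 10 RP.X45)) RP.tK45 RP.K1_45 10 = true ∧
    K8.Pt.chH RS.D (RS.D.QE E45.g 11) (Nat.xor (mkE RS.D.w E45.z 11) (K8.Pt.xLL RS.D.w 11 RP.X45)) RP.tK45 RP.K1_45 11 = true) ∧
    (K8.Pt.chH RS.D (RS.D.QE E45.g 12) (Nat.xor (mkE RS.D.w E45.z 12) (K8.Pt.xLL RS.D.w 12 RP.X45)) RP.tK45 RP.K1_45 12 = true ∧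
    K8.Pt.chH RS.D (RS.D.QE E45.g 13) (Nat.xor (mkE RS.D.w E45.z 13) (K8.Pt.xLL RS.D.w 13 RP.X45)) RP.tK45 RP.K1_45 13 = true ∧
    K8.Pt.chH RS.D (RS.D.QE E45.g 14) (Nat.xor (mkE RS.D.w E45.z 14) (K8.Pt.xLL RS.D.w 14 RP.X45)) RP.tK45 RP.K1_45 14 = true ∧
    K8.Pt.chH RS.D (RS.D.QE E45.g 15) (Nat.xor (mkE RS.D.w E45.z 15) (K8.Pt.xLL RS.D.w 15 RP.X45)) RP.tK45 RP.K1_45 15 = true) := by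
  refine ⟨⟨?_, ?_, ?_, ?_⟩, ⟨?_, ?_, ?_, ?_⟩, ⟨?_, ?_, ?_, ?_⟩, ⟨?_, ?_, ?_, ?_⟩⟩ <;> decide +kernel

theorem r1_45 : ∀ τ < 16, K8.Pt.chH RS.D (RS.D.QE E45.g τ) (Nat.xor (mkE RS.D.w E45.z τ) (K8.Pt.xLL RS.D.w τ RP.X45)) RP.tK45 RP.K1_45 τ = true :=
  Tabs.forall16 (fun τ => K8.Pt.chH RS.D (RS.D.QE E45.g τ) (Nat.xor (mkE RS.D.w E45.z τ) (K8.Pt.xLL RS.D.w τ RP.X45)) RP.tK45 RP.K1_45 τ = true)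
    q45.1 q45.2.1 q45.2.2.1 q45.2.2.2

end Pool.Agent.Lib.MP_afdd4d_co.K10.RN
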