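import Pool.Agent.Lib.MP_afdd4d_co.K8.RN.E52
import Pool.Agent.Lib.MP_afdd4d_co.K10.RS.Dat
import Pool.Agent.Lib.MP_afdd4d_co.K8.PsiExc
import Pool.Agent.Lib.MP_afdd4d_co.K10.RP.T52

/-!
# The condition for the 4-graph of the coset number 52
-/

namespace Pool.Agent.Lib.MP_afdd4d_co.K10.RN

open K8 RS K8.Jv Pool.Agent.Lib.MP_afdd4d_co.K8.RN

theorem q52 :
    (K8.Pt.chH RS.D (RS.D.QE E52.g 0) (Nat.xor (mkE RS.D.w E52.z 0) (K8.Pt.xLL RS.D.w 0 RP.X52)) RP.tK52 RP.K1_52 0 = true ∧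
    K8.Pt.chH RS.D (RS.D.QE E52.g 1) (Nat.xor (mkE RS.D.w E52.z 1) (K8.Pt.xLL RS.D.w 1 RP.X52)) RP.tK52 RP.K1_52 1 = true ∧
    K8.Pt.chH RS.D (RS.D.QE E52.g 2) (Nat.xor (mkE RS.D.w E52.z 2) (K8.Pt.xLL RS.D.w 2 RP.X52)) RP.tK52 RP.K1_52 2 = true ∧
    K8.Pt.chH RS.D (RS.D.QE E52.g 3) (Nat.xor (mkE RS.D.w E52.z 3) (K8.Pt.xLL RS.D.w 3 RP.X52)) RP.tK52 RP.K1_52 3 = true) ∧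
    (K8.Pt.chH RS.D (RS.D.QE E52.g 4) (Nat.xor (mkE RS.D.w E52.z 4) (K8.Pt.xLL RS.D.w 4 RP.X52)) RP.tK52 RP.K1_52 4 = true ∧
    K8.Pt.chH RS.D (RS.D.QE E52.g 5) (Nat.xor (mkE RS.D.w E52.z 5) (K8.Pt.xLL RS.D.w 5 RP.X52)) RP.tK52 RP.K1_52 5 = true ∧
    K8.Pt.chH RS.D (RS.D.QE E52.g 6) (Nat.xor (mkE RS.D.w E52.z 6) (K8.Pt.xLL RS.D.w 6 RP.X52)) RP.tK52 RP.K1_52 6 = true ∧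
    K8.Pt.chH RS.D (RS.D.QE E52.g 7) (Nat.xor (mkE RS.D.w E52.z 7) (K8.Pt.xLL RS.D.w 7 RP.X52)) RP.tK52 RP.K1_52 7 = true) ∧
    (K8.Pt.chH RS.D (RS.D.QE E52.g 8) (Nat.xor (mkE RS.D.w E52.z 8) (K8.Pt.xLL RS.D.w 8 RP.X52)) RP.tK52 RP.K1_52 8 = true ∧
    K8.Pt.chH RS.D (RS.D.QE E52.g 9) (Nat.xor (mkE RS.D.w E52.z 9) (K8.Pt.xLL RS.D.w 9 RP.X52)) RP.tK52 RP.K1_52 9 = true ∧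
    K8.Pt.chH RS.D (RS.D.QE E52.g 10) (Nat.xor (mkE RS.D.w E52.z 10) (K8.Pt.xLL RS.D.w 10 RP.X52)) RP.tK52 RP.K1_52 10 = true ∧
    K8.Pt.chH RS.D (RS.D.QE E52.g 11) (Nat.xor (mkE RS.D.w E52.z 11) (K8.Pt.xLL RS.D.w 11 RP.X52)) RP.tK52 RP.K1_52 11 = true) ∧
    (K8.Pt.chH RS.D (RS.D.QE E52.g 12) (Nat.xor (mkE RS.D.w E52.z 12) (K8.Pt.xLL RS.D.w 12 RP.X52)) RP.tK52 RP.K1_52 12 = true ∧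
    K8.Pt.chH RS.D (RS.D.QE E52.g 13) (Nat.xor (mkE RS.D.w E52.z 13) (K8.Pt.xLL RS.D.w 13 RP.X52)) RP.tK52 RP.K1_52 13 = true ∧
    K8.Pt.chH RS.D (RS.D.QE E52.g 14) (Nat.xor (mkE RS.D.w E52.z 14) (K8.Pt.xLL RS.D.w 14 RP.X52)) RP.tK52 RP.K1_52 14 = true ∧
    K8.Pt.chH RS.D (RS.D.QE E52.g 15) (Nat.xor (mkE RS.D.w E52.z 15) (K8.Pt.xLL RS.D.w 15 RP.X52)) RP.tK52 RP.K1_52 15 = true) := by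
  refine ⟨⟨?_, ?_, ?_, ?_⟩, ⟨?_, ?_, ?_, ?_⟩, ⟨?_, ?_, ?_, ?_⟩, ⟨?_, ?_, ?_, ?_⟩⟩ <;> decide +kernel

theorem r1_52 : ∀ τ < 16, K8.Pt.chH RS.D (RS.D.QE E52.g τ) (Nat.xor (mkE RS.D.w E52.z τ) (K8.Pt.xLL RS.D.w τ RP.X52)) RP.tK52 RP.K1_52 τ = true :=
  Tabs.forall16 (fun τ => K8.Pt.chH RS.D (RS.D.QE E52.g τ) (Nat.xor (mkE RS.D.w E52.z τ) (K8.Pt.xLL RS.D.w τ RP.X52)) RP.tK52 RP.K1_52 τ = true)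
    q52.1 q52.2.1 q52.2.2.1 q52.2.2.2

end Pool.Agent.Lib.MP_afdd4d_co.K10.RN
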